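import Pool.Agent.L5helper68.AH.Real

/-!
# Hodge classes and absolute Hodge classes of realizations
-/

set_option autoImplicit false

open CategoryTheory CategoryTheory.Limits AlgebraicGeometry Pool.Agent.Y116.UV Pool.Agent.Z125.UN
  Pool.Agent.L5helper68.GO

namespace Pool.Agent.L5helper68.AH

universe v u v' u'

variable {C : Type u} [Category.{v} C] {B : Type u'} [Category.{v'} B]

/-- **Every Hodge class of `M` is absolute Hodge.** Here `C` is the category of mixed realizations (the
de Rham and étale realizations and, for all `σ ∈ Aut(ℂ)`, the mixed Hodge structures of the conjugates,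
with the comparison isomorphisms), `B` is the category of mixed Hodge structures, `ω` is the realization at
`σ = id` and `I` is the unit object `ℚ(0)`. The Hodge classes of `M` are the morphisms `ω(I) ⟶ ω(M)`, the
absolute Hodge classes are those of the form `ω(g)` for a morphism `g : I ⟶ M`. -/
def HodgeIsAbsolute (ω : C ⥤ B) (I M : C) : Prop :=
  ∀ f : ω.obj I ⟶ ω.obj M, ∃ g : I ⟶ M, ω.map g = f

lemma additive_hodge [Abelian C] [Preadditive B] (ω : C ⥤ B) [ω.Additive] (I : C) :
    AdditiveProperty (HodgeIsAbsolute ω I) where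
  zero M hM f := ⟨0, by
    rw [Functor.map_zero]
    have h : IsZero (ω.obj M) := ω.map_isZero hM
    exact h.eq_of_tgt _ _⟩
  summand := by
    rintro S M ⟨s, r, hsr⟩ h f
    obtain ⟨g, hg⟩ := h (f ≫ ω.map s)
    refine ⟨g ≫ r, ?_⟩
    rw [Functor.map_comp, hg, Category.assoc, ← Functor.map_comp, hsr,
      CategoryTheory.Functor.map_id, Category.comp_id]
  sum := by
    intro M N N' hM hN e f
    obtain ⟨g1, h1⟩ := hM (f ≫ ω.map (e.hom ≫ biprod.fst))
    obtain ⟨g2, h2⟩ := hN (f ≫ ω.map (e.hom ≫ biprod.snd))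
    refine ⟨g1 ≫ biprod.inl ≫ e.inv + g2 ≫ biprod.inr ≫ e.inv, ?_⟩
    rw [Functor.map_add, Functor.map_comp _ g1, Functor.map_comp _ g2, h1, h2, Category.assoc,
      Category.assoc, ← Functor.map_comp, ← Functor.map_comp, ← Preadditive.comp_add,
      ← Functor.map_add]
    have h3 : (e.hom ≫ biprod.fst) ≫ biprod.inl ≫ e.inv + (e.hom ≫ biprod.snd) ≫ biprod.inr ≫
        e.inv = 𝟙 _ := by
      have := biprod.total (X := M) (Y := N)
      calc _ = e.hom ≫ (biprod.fst ≫ biprod.inl + biprod.snd ≫ biprod.inr) ≫ e.inv := by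
            simp only [Category.assoc, Preadditive.add_comp, Preadditive.comp_add]
        _ = _ := by rw [this]; simp
    rw [h3, CategoryTheory.Functor.map_id, Category.comp_id]

variable [Abelian C] [HasShift C ℤ] [Preadditive B]

/-- The standard properties of the cohomology with compact support of complex schemes with values in mixed
realizations.

* `mixed`: see `IsMixedCohomology`;
* `weights`: `H^i(X)(n)` has no nonzero Hodge classes if `X` is smooth and projective and `i ≠ 2n`;
* `threefolds`: on smooth projective schemes of dimension at most three all Hodge classes are absolute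
  Hodge (they are algebraic, by Lefschetz's theorem on (1,1)-classes and the hard Lefschetz theorem). -/
structure IsHodgeRealization (Hc : Sch ℂ → ℕ → C) (ω : C ⥤ B) (I : C) : Prop where
  mixed : IsMixedCohomology Hc
  weights : ∀ X : Sch ℂ, SmoothProjective X → ∀ (i : ℕ) (n : ℤ), (i : ℤ) ≠ 2 * n →
    ∀ f : ω.obj I ⟶ ω.obj ((Hc X i)⟦n⟧), f = 0
  threefolds : ∀ X : Sch ℂ, SmoothProjective X → topologicalKrullDim X.left ≤ 3 → ∀ p : ℕ,
    HodgeIsAbsolute ω I ((Hc X (2 * p))⟦(p : ℤ)⟧)

theorem hodge_iff {Hc : Sch ℂ → ℕ → C} {ω : C ⥤ B} {I : C} (hH : IsHodgeRealization Hc ω I)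
    [ω.Additive] [∀ n : ℤ, (shiftFunctor C n).Additive] (n : ℕ) :
    ForProjective Hc (HodgeIsAbsolute ω I) n ↔ ForBlock Hc (HodgeIsAbsolute ω I) (n + 2) :=
  ⟨block_of_proj hH.mixed (additive_hodge ω I) fun X hX i n hi f =>
      ⟨0, by rw [Functor.map_zero, hH.weights X hX i n hi f]⟩,
    proj_of_block hH.mixed (additive_hodge ω I)⟩

end Pool.Agent.L5helper68.AH
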