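import Pool.Agent.L5helper68.AH.Semi

/-!
# Additive properties of realizations of smooth projective schemes and of `T(x, y, z) = 1`
-/

set_option autoImplicit false

open CategoryTheory CategoryTheory.Limits AlgebraicGeometry Pool.Agent.Y116.UV Pool.Agent.Z125.UN
  Pool.Agent.L5helper68.GO

namespace Pool.Agent.L5helper68.AH

universe v u v' u'

attribute [local instance] MvPolynomial.gradedAlgebra in
/-- The projective space of dimension `n` over `K`. -/
noncomputable def projSpace (K : Type) [Field K] (n : ℕ) : Sch K :=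
  Over.mk (Proj.toSpecZero (MvPolynomial.homogeneousSubmodule (Fin (n + 1)) K) ≫
    Spec.map (CommRingCat.ofHom
      (algebraMap K (MvPolynomial.homogeneousSubmodule (Fin (n + 1)) K 0))))

/-- `X` is smooth and projective over `K`: it has a closed immersion into some projective space. -/
structure SmoothProjective {K : Type} [Field K] (X : Sch K) : Prop where
  ft : FT True X
  smooth : Smooth X.hom
  projective : ∃ (n : ℕ) (i : X ⟶ projSpace K n), IsClosedImmersion i.left

variable {K : Type} [Field K] {C : Type u} [Category.{v} C] [Abelian C] [HasShift C ℤ]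

omit [HasShift C ℤ] in
lemma SumOfSimples.of_simple {S : C} (h : Simple S) : SumOfSimples S := by
  obtain ⟨Z, hZ⟩ : ∃ Z : C, IsZero Z := (inferInstance : HasZeroObject C).zero
  exact .add h (.zero hZ) (isoBiprodZero hZ)

omit [HasShift C ℤ] in
lemma _root_.Pool.Agent.L5helper68.GO.IsSubquotient.trans {A B D : C} (h : IsSubquotient A B)
    (h' : IsSubquotient B D) : IsSubquotient A D := by
  obtain ⟨W, i, p, hi, hp⟩ := h'
  exact (h.of_epi p).of_mono i

/-- The standard properties of a cohomology with compact support `Hc` with values in an abelian category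
`C` of mixed realizations with Tate twists `A ↦ A⟦n⟧`.

* `compact`: invariance, localization, affine bundles, tori;
* `semisimple`: the cohomology of a smooth projective scheme is a finite direct sum of simple objects
  (Deligne, by polarizations);
* `resolution`: a simple object occurring in the cohomology with compact support of any `X` occurs in the
  cohomology of a smooth projective scheme of dimension at most the one of `X` (Hironaka, Deligne). -/
structure IsMixedCohomology (Hc : Sch K → ℕ → C) : Prop where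
  compact : IsCompactCohomology Hc
  semisimple : ∀ X : Sch K, SmoothProjective X → ∀ i : ℕ, SumOfSimples (Hc X i)
  resolution : ∀ X : Sch K, FT True X → ∀ S : C, Simple S → OccursIn Hc S X →
    ∃ Y : Sch K, SmoothProjective Y ∧ topologicalKrullDim Y.left ≤ topologicalKrullDim X.left ∧
      OccursIn Hc S Y

/-- A property of objects which is inherited by direct summands and by direct sums. -/
structure AdditiveProperty (P : C → Prop) : Prop where
  zero : ∀ M : C, IsZero M → P M
  summand : ∀ {S M : C}, IsSummand S M → P M → P S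
  sum : ∀ {M N N' : C}, P M → P N → (N' ≅ M ⊞ N) → P N'

/-- `P` for all smooth projective schemes of dimension at most `n`, in the degrees `2 p` with the twist
`p`. -/
def ForProjective (Hc : Sch K → ℕ → C) (P : C → Prop) (n : ℕ) : Prop :=
  ∀ X : Sch K, SmoothProjective X → topologicalKrullDim X.left ≤ n → ∀ p : ℕ,
    P ((Hc X (2 * p))⟦(p : ℤ)⟧)

/-- `P` for all Tate twists of all semisimple subquotients `M` (for instance the graded pieces of the
weight filtration) of the cohomology with compact support of the hypersurfaces `T(x, y, z) = 1`, where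
one of the three blocks of variables of the trilinear form `T` has at most `m` variables. -/
def ForBlock (Hc : Sch K → ℕ → C) (P : C → Prop) (m : ℕ) : Prop :=
  ∀ (a b c : ℕ) (T : Fin a → Fin b → Fin c → K), (a ≤ m ∨ b ≤ m ∨ c ≤ m) →
    ∀ (j : ℕ) (M : C), SumOfSimples M → IsSubquotient M (Hc (hypS T) j) → ∀ n : ℤ, P (M⟦n⟧)

section

variable {Hc : Sch K → ℕ → C} (hM : IsMixedCohomology Hc) {P : C → Prop} (hP : AdditiveProperty P)
  (hw : ∀ X : Sch K, SmoothProjective X → ∀ (i : ℕ) (n : ℤ), (i : ℤ) ≠ 2 * n → P ((Hc X i)⟦n⟧))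

include hP

lemma AdditiveProperty.iso {A B : C} (e : A ≅ B) (h : P A) : P B :=
  hP.summand ⟨e.inv, e.hom, e.inv_hom_id⟩ h

/-- all twists -/
lemma twists_closed : TwistClosed (fun S : C => ∀ n : ℤ, P (S⟦n⟧)) where
  iso e h n := hP.iso ((shiftFunctor C n).mapIso e) (h n)
  twist {A} n h m := hP.iso ((shiftFunctorAdd C n m).app A) (h (n + m))

omit [Abelian C] hP in
lemma IsSummand.shift [Abelian C] {S M : C} (h : IsSummand S M) (n : ℤ) :
    IsSummand (S⟦n⟧) (M⟦n⟧) := by
  obtain ⟨s, r, h⟩ := h
  refine ⟨(shiftFunctor C n).map s, (shiftFunctor C n).map r, ?_⟩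
  rw [← CategoryTheory.Functor.map_comp, h, CategoryTheory.Functor.map_id]

lemma shift_zero [∀ n : ℤ, (shiftFunctor C n).Additive] (n : ℤ) (M : C) (h0 : IsZero M) :
    P (M⟦n⟧) := hP.zero _ ((shiftFunctor C n).map_isZero h0)

lemma shift_sum [∀ n : ℤ, (shiftFunctor C n).Additive] (n : ℤ) (M N N' : C) (h1 : P (M⟦n⟧))
    (h2 : P (N⟦n⟧)) (e : N' ≅ M ⊞ N) : P (N'⟦n⟧) := by
  have := preservesBinaryBiproducts_of_preservesBiproducts (shiftFunctor C n)
  exact hP.sum h1 h2 ((shiftFunctor C n).mapIso e ≪≫ (shiftFunctor C n).mapBiprod M N)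

include hM hw

lemma proj_allIn {X : Sch K} (hX : SmoothProjective X) (h : ∀ p : ℕ, P ((Hc X (2 * p))⟦(p : ℤ)⟧))
    (S : C) [Simple S] (i : ℕ) (hS : IsSubquotient S (Hc X i)) (n : ℤ) : P (S⟦n⟧) := by
  have h1 := (hM.semisimple X hX i).summand hS
  refine hP.summand (h1.shift n) ?_
  by_cases hi : (i : ℤ) = 2 * n
  · obtain ⟨p, rfl⟩ : ∃ p : ℕ, n = p := ⟨n.toNat, by omega⟩
    obtain rfl : i = 2 * p := by omega
    exact h p
  · exact hw X hX i n hi

theorem simple_of_proj [PerfectField K] {n : ℕ} (h : ForProjective Hc P n) (a b c : ℕ)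
    (T : Fin a → Fin b → Fin c → K) (hm : a ≤ n + 2 ∨ b ≤ n + 2 ∨ c ≤ n + 2) (j : ℕ) (S : C)
    (hS : Simple S) (hs : IsSubquotient S (Hc (hypS T) j)) : ∀ k : ℤ, P (S⟦k⟧) := by
  have hQ := twists_closed hP
  obtain ⟨X, ⟨hX, -, hn⟩, h1⟩ := occ_sm hM.compact T hm (occursIn_of_sub hs)
  obtain ⟨Y, hY, hd, k, i, h2⟩ := hM.resolution X hX S hS h1
  have h3 := simple_shift S k
  exact hQ.untwist k fun m => proj_allIn hM hP hw hY (h Y hY (hd.trans hn)) (S⟦k⟧) i h2 m

theorem block_of_proj [PerfectField K] [∀ n : ℤ, (shiftFunctor C n).Additive] {n : ℕ}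
    (h : ForProjective Hc P n) : ForBlock Hc P (n + 2) := by
  intro a b c T hm j M hM' hs m
  refine hM'.induct (P := fun M => P (M⟦m⟧)) (shift_zero hP m) (shift_sum hP m) ?_
  intro S hS hs'
  exact simple_of_proj hM hP hw h a b c T hm j S hS (hs'.trans hs) m

omit hw

theorem proj_of_block [PerfectField K] [∀ n : ℤ, (shiftFunctor C n).Additive] {n : ℕ}
    (h : ForBlock Hc P (n + 2)) : ForProjective Hc P n := by
  intro X hX hn p
  have hQ := twists_closed hP
  refine (hM.semisimple X hX (2 * p)).induct (P := fun M => P (M⟦(p : ℤ)⟧)) (shift_zero hP p)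
    (shift_sum hP p) ?_
  intro S hS hs
  obtain ⟨_, ⟨a, b, c, T, hm, rfl⟩, k, j, h2⟩ := occ_triB hM.compact hX.ft hn
    (occursIn_of_sub hs)
  have h3 := simple_shift S k
  exact hQ.untwist k (h a b c T hm j _ (SumOfSimples.of_simple h3) h2) p

end

end Pool.Agent.L5helper68.AH
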