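import Pool.Agent.L5helper68.GO.Main

/-!
# Finite direct sums of simple objects
-/

set_option autoImplicit false

open CategoryTheory CategoryTheory.Limits Pool.Agent.L5helper68.GO

namespace Pool.Agent.L5helper68.AH

universe v u v' u'

/-- `M` is a finite direct sum of simple objects. -/
inductive SumOfSimples {C : Type u} [Category.{v} C] [Abelian C] : C → Prop
  | zero {M : C} : IsZero M → SumOfSimples M
  | add {S M N : C} : Simple S → SumOfSimples M → (N ≅ S ⊞ M) → SumOfSimples N

variable {C : Type u} [Category.{v} C] [Abelian C]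

/-- `S` is a direct summand of `M`. -/
def IsSummand (S M : C) : Prop := ∃ (s : S ⟶ M) (r : M ⟶ S), s ≫ r = 𝟙 S

lemma IsSummand.sub {S M : C} (h : IsSummand S M) : IsSubquotient S M := by
  obtain ⟨s, r, h⟩ := h
  have : Mono s := mono_of_mono_fac h
  exact ⟨S, s, 𝟙 S, inferInstance, inferInstance⟩

lemma IsSummand.trans {S M N : C} (h : IsSummand S M) (h' : IsSummand M N) : IsSummand S N := by
  obtain ⟨s, r, h⟩ := h
  obtain ⟨s', r', h'⟩ := h'
  refine ⟨s ≫ s', r' ≫ r, ?_⟩
  rw [Category.assoc, ← Category.assoc s', h', Category.id_comp, h]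

lemma iso_of_sub_simple {S T : C} [Simple S] [Simple T] (h : IsSubquotient S T) :
    Nonempty (S ≅ T) := by
  obtain ⟨W, i, p, hi, hp⟩ := h
  have hp0 : p ≠ 0 := by
    rintro rfl
    exact Simple.not_isZero S (IsZero.of_epi_zero W S)
  have hi0 : i ≠ 0 := by
    rintro rfl
    have : IsZero W := IsZero.of_mono_zero W T
    exact hp0 (this.eq_of_src _ _)
  have h1 : IsIso i := isIso_of_mono_of_nonzero hi0
  have h2 : IsIso (inv i ≫ p) := by
    have h3 : Epi (inv i ≫ p) := epi_comp _ _
    refine isIso_of_epi_of_nonzero ?_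
    intro h4
    apply hp0
    have h5 := congrArg (fun f => i ≫ f) h4
    simp only [IsIso.hom_inv_id_assoc, comp_zero] at h5
    exact h5
  exact ⟨(asIso (inv i ≫ p)).symm⟩

/-- A simple subquotient of a finite direct sum of simple objects is a direct summand. -/
theorem SumOfSimples.summand {N : C} (hN : SumOfSimples N) {S : C} [Simple S]
    (h : IsSubquotient S N) : IsSummand S N := by
  induction hN with
  | zero hM => exact absurd h (not_subquotient_zero hM)
  | @add S' M N hS' _ e ih =>
    have h1 : IsSubquotient S (S' ⊞ M) := h.iso_right e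
    have hx : (ShortComplex.mk (biprod.inl : S' ⟶ S' ⊞ M) biprod.snd (by simp)).Exact :=
      (ShortComplex.Splitting.ofHasBinaryBiproduct S' M).exact
    rcases subquotient_exact _ _ _ hx h1 with h2 | h2
    · obtain ⟨f⟩ := iso_of_sub_simple h2
      refine ⟨f.hom ≫ biprod.inl ≫ e.inv, e.hom ≫ biprod.fst ≫ f.inv, ?_⟩
      simp
    · obtain ⟨s, r, hsr⟩ := ih h2
      refine ⟨s ≫ biprod.inr ≫ e.inv, e.hom ≫ biprod.snd ≫ r, ?_⟩
      simp [hsr]

/-- Induction for additive properties: the simple summands decide. -/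
theorem SumOfSimples.induct {P : C → Prop} (h0 : ∀ M, IsZero M → P M)
    (h2 : ∀ M N N', P M → P N → (N' ≅ M ⊞ N) → P N') {N : C} (hN : SumOfSimples N)
    (h : ∀ S, Simple S → IsSubquotient S N → P S) : P N := by
  induction hN with
  | zero hM => exact h0 _ hM
  | @add S' M N hS' _ e ih =>
    refine h2 S' M N (h S' hS' ?_) (ih fun S hS hs => h S hS ?_) e
    · exact IsSummand.sub ⟨biprod.inl ≫ e.inv, e.hom ≫ biprod.fst, by simp⟩
    · have : Mono (biprod.inr ≫ e.inv : M ⟶ N) := mono_comp _ _
      exact hs.of_mono (biprod.inr ≫ e.inv)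

end Pool.Agent.L5helper68.AH
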